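import Mathlib

/-!
# Fundamental group of a stratified space with simply connected open stars

`X` is a space with a map `s : X → P` to a poset such that all sets `{x | σ ≤ s x}` are open and
simply connected.  We compute the fundamental group from combinatorial data on `P`.
-/

set_option autoImplicit false

open Topology Set

namespace Pool.Agent.Lib.MP_340815_al.Strat

universe u v w

section PathInduction

variable {X : Type u} [TopologicalSpace X]

/-- Path induction: a property of homotopy classes of paths that holds for paths inside one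
member of an open cover and is closed under concatenation holds always. -/
theorem path_induction {ι : Type v} (U : ι → Set X) (hU : ∀ i, IsOpen (U i))
    (hcov : ∀ x, ∃ i, x ∈ U i)
    (Q : ∀ x y : X, Path.Homotopic.Quotient x y → Prop)
    (hloc : ∀ (i : ι) (x y : X) (γ : Path x y), (∀ t, γ t ∈ U i) → Q x y (.mk γ))
    (htrans : ∀ (x y z : X) (γ : Path.Homotopic.Quotient x y)
      (γ' : Path.Homotopic.Quotient y z), Q x y γ → Q y z γ' → Q x z (γ.trans γ'))
    (x y : X) (γ : Path.Homotopic.Quotient x y) : Q x y γ := by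
  obtain ⟨γ⟩ := γ
  change Q x y (.mk γ)
  obtain ⟨t, t0, tmono, ⟨n, tn⟩, ht⟩ := exists_monotone_Icc_subset_open_cover_unitInterval
    (c := fun i => γ ⁻¹' U i) (fun i => (hU i).preimage γ.continuous)
    (fun a _ => by
      obtain ⟨i, hi⟩ := hcov (γ a)
      exact mem_iUnion.2 ⟨i, hi⟩)
  have key : ∀ k, Q (γ (t 0)) (γ (t k)) (.mk (γ.subpath (t 0) (t k))) := by
    intro k
    induction k with
    | zero =>
      obtain ⟨i, hi⟩ := hcov (γ (t 0))
      refine hloc i _ _ _ fun a => ?_
      rw [Path.subpath_self]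
      simpa using hi
    | succ k ih =>
      obtain ⟨i, hi⟩ := ht k
      have h2 : Q (γ (t k)) (γ (t (k+1))) (.mk (γ.subpath (t k) (t (k+1)))) := by
        refine hloc i _ _ _ fun a => ?_
        have : γ.subpath (t k) (t (k+1)) a ∈ range (γ.subpath (t k) (t (k+1))) := ⟨a, rfl⟩
        rw [Path.range_subpath_of_le _ _ _ (tmono (Nat.le_succ k))] at this
        obtain ⟨b, hb, hb'⟩ := this
        rw [← hb']
        exact hi hb
      have h3 := htrans _ _ _ _ _ ih h2
      have h4 : (Path.Homotopic.Quotient.mk (γ.subpath (t 0) (t k))).trans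
          (Path.Homotopic.Quotient.mk (γ.subpath (t k) (t (k+1)))) =
          Path.Homotopic.Quotient.mk (γ.subpath (t 0) (t (k+1))) := by
        rw [← Path.Homotopic.Quotient.mk_trans]
        exact Path.Homotopic.Quotient.eq.2 ⟨Path.Homotopy.subpathTransSubpath γ _ _ _⟩
      rwa [h4] at h3
  have h := key n
  have e0 : t 0 = 0 := t0
  have e1 : t n = 1 := tn n le_rfl
  rw [e0, e1, Path.subpath_zero_one] at h
  have : ∀ (x' y' : X) (hx : x' = x) (hy : y' = y),
      Q x' y' (.mk (γ.cast hx hy)) → Q x y (.mk γ) := by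
    rintro _ _ rfl rfl h; exact h
  exact this _ _ γ.source γ.target h

end PathInduction

section Transport

variable {X : Type u} [TopologicalSpace X] {P : Type v} [Preorder P] {s : X → P}
  {G : Type w} [Group G]

/-- A multiplicative cocycle on the order relation of `P`. -/
def IsCocycle {P : Type v} [Preorder P] {G : Type w} [Group G] (g : P → P → G) : Prop :=
  ∀ σ τ ρ, σ ≤ τ → τ ≤ ρ → g σ τ * g τ ρ = g σ ρ

theorem IsCocycle.self {g : P → P → G} (hg : IsCocycle g) (σ : P) : g σ σ = 1 := by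
  have := hg σ σ σ le_rfl le_rfl
  simpa using this

/-- The principal bundle with discrete fibre defined by a cocycle. -/
def core [TopologicalSpace G] [DiscreteTopology G] (hs : ∀ σ, IsOpen {x | σ ≤ s x})
    (g : P → P → G) (hg : IsCocycle g) : FiberBundleCore P X G where
  baseSet σ := {x | σ ≤ s x}
  isOpen_baseSet := hs
  indexAt := s
  mem_baseSet_at _ := le_rfl
  coordChange i j x h := h * g i (s x) * (g j (s x))⁻¹
  coordChange_self i x _ v := by simp
  continuousOn_coordChange i j := by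
    rintro ⟨x, h⟩ ⟨⟨hi, hj⟩, -⟩
    refine ContinuousAt.continuousWithinAt ?_
    have hev : (fun p : X × G => p.2 * g i (s p.1) * (g j (s p.1))⁻¹) =ᶠ[𝓝 (x, h)]
        fun _ => h * g i (s x) * (g j (s x))⁻¹ := by
      have h1 : {y | s x ≤ s y} ×ˢ ({h} : Set G) ∈ 𝓝 (x, h) :=
        prod_mem_nhds ((hs (s x)).mem_nhds (le_refl (s x))) (by simp)
      filter_upwards [h1]
      rintro ⟨y, h'⟩ ⟨hy, hh⟩
      have hh' : h' = h := hh
      subst hh'
      have hy' : s x ≤ s y := hy
      have hi' : i ≤ s x := hi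
      have hj' : j ≤ s x := hj
      simp only
      rw [← hg i (s x) (s y) hi' hy', ← hg j (s x) (s y) hj' hy']
      group
    exact (continuousAt_const).congr hev.symm
  coordChange_comp i j k x _ v := by
    group

theorem exists_transport (hs : ∀ σ, IsOpen {x | σ ≤ s x})
    (g : P → P → G) (hg : IsCocycle g) :
    ∃ F : ∀ x y : X, Path.Homotopic.Quotient x y → G,
      (∀ (x y z : X) (γ : Path.Homotopic.Quotient x y) (γ' : Path.Homotopic.Quotient y z),
        F x z (γ.trans γ') = F x y γ * F y z γ') ∧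
      (∀ (σ : P) (x y : X) (γ : Path x y), (∀ t, σ ≤ s (γ t)) →
        F x y (.mk γ) = (g σ (s x))⁻¹ * g σ (s y)) := by
  let _ : TopologicalSpace G := ⊥
  have _ : DiscreteTopology G := ⟨rfl⟩
  let Z := core hs g hg
  have cov : IsCoveringMap (Bundle.TotalSpace.proj : Bundle.TotalSpace G Z.Fiber → X) :=
    FiberBundle.isCoveringMap
  -- local formula
  have hloc : ∀ (σ : P) (x y : X) (γ : Path x y), (∀ t, σ ≤ s (γ t)) → ∀ h : G,
      cov.monodromy (.mk γ) ⟨⟨x, h⟩, rfl⟩ =
        ⟨⟨y, (h * ((g σ (s x))⁻¹ * g σ (s y)) : G)⟩, rfl⟩ := by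
    intro σ x y γ hγ h
    have hval : ∀ t, (Z.localTriv σ).toOpenPartialHomeomorph.symm
        (γ t, (h * (g σ (s x))⁻¹ : G)) =
        (⟨γ t, ((h * (g σ (s x))⁻¹) * g σ (s (γ t)) : G)⟩ :
          Bundle.TotalSpace G Z.Fiber) := by
      intro t
      rw [FiberBundleCore.localTriv_symm_apply]
      change (⟨γ t, ((h * (g σ (s x))⁻¹) * g σ (s (γ t)) * (g (s (γ t)) (s (γ t)))⁻¹ : G)⟩ :
        Bundle.TotalSpace G Z.Fiber) = _
      rw [hg.self, inv_one, mul_one]
    have hcont : Continuous fun t : unitInterval => ((⟨γ t, ((h * (g σ (s x))⁻¹) * g σ (s (γ t)) : G)⟩ :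
          Bundle.TotalSpace G Z.Fiber)) := by
      have h1 : ContinuousOn (Z.localTriv σ).toOpenPartialHomeomorph.symm
          (Z.localTriv σ).target := (Z.localTriv σ).toOpenPartialHomeomorph.continuousOn_symm
      have h2 : Continuous fun t : unitInterval => (γ t, (h * (g σ (s x))⁻¹ : G)) := by fun_prop
      have h3 := h1.comp_continuous h2 (fun t => by
        rw [FiberBundleCore.mem_localTriv_target]
        exact hγ t)
      exact h3.congr hval
    let Γ : Path (⟨x, h⟩ : Bundle.TotalSpace G Z.Fiber)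
        ⟨y, (h * ((g σ (s x))⁻¹ * g σ (s y)) : G)⟩ :=
      { toFun := fun t => ⟨γ t, ((h * (g σ (s x))⁻¹) * g σ (s (γ t)) : G)⟩
        continuous_toFun := hcont
        source' := by
          have e : ∀ x' : X, x' = x → (⟨x', (h * (g σ (s x))⁻¹ * g σ (s x') : G)⟩ :
              Bundle.TotalSpace G Z.Fiber) = ⟨x, h⟩ := by
            rintro x' rfl
            have h1 : h * (g σ (s x'))⁻¹ * g σ (s x') = h := by group
            exact congrArg (fun a : G => (⟨x', a⟩ : Bundle.TotalSpace G Z.Fiber)) h1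
          exact e _ γ.source
        target' := by
          have e : ∀ x' : X, x' = y → (⟨x', (h * (g σ (s x))⁻¹ * g σ (s x') : G)⟩ :
              Bundle.TotalSpace G Z.Fiber) =
              ⟨y, (h * ((g σ (s x))⁻¹ * g σ (s y)) : G)⟩ := by
            rintro x' rfl
            have h1 : h * (g σ (s x))⁻¹ * g σ (s x') = h * ((g σ (s x))⁻¹ * g σ (s x')) :=
              mul_assoc _ _ _
            exact congrArg (fun a : G => (⟨x', a⟩ : Bundle.TotalSpace G Z.Fiber)) h1
          exact e _ γ.target }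
    refine cov.monodromy_eq_of_map_eq (ex := ⟨⟨x, h⟩, rfl⟩)
      (ey := ⟨⟨y, (h * ((g σ (s x))⁻¹ * g σ (s y)) : G)⟩, rfl⟩) (.mk Γ) ?_
    rfl
  have hall : ∀ (x y : X) (γ : Path.Homotopic.Quotient x y), ∃ a : G, ∀ h : G,
      cov.monodromy γ ⟨⟨x, h⟩, rfl⟩ = ⟨⟨y, (h * a : G)⟩, rfl⟩ := by
    refine path_induction (fun σ => {x | σ ≤ s x}) hs (fun x => ⟨s x, le_rfl⟩) _ ?_ ?_
    · intro σ x y γ hγ
      exact ⟨_, hloc σ x y γ hγ⟩
    · rintro x y z γ γ' ⟨a, ha⟩ ⟨b, hb⟩
      refine ⟨a * b, fun h => ?_⟩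
      rw [cov.monodromy_trans_apply, ha, hb, mul_assoc]
  choose F hF using hall
  have huniq : ∀ (x y : X) (γ : Path.Homotopic.Quotient x y) (a : G),
      cov.monodromy γ ⟨⟨x, (1 : G)⟩, rfl⟩ = ⟨⟨y, (a : G)⟩, rfl⟩ → F x y γ = a := by
    intro x y γ a ha
    rw [hF x y γ 1] at ha
    have h1 := congrArg Subtype.val ha
    simp only [one_mul] at h1
    exact eq_of_heq (Bundle.TotalSpace.mk.inj h1).2
  refine ⟨F, ?_, ?_⟩
  · intro x y z γ γ'
    apply huniq
    rw [cov.monodromy_trans_apply, hF, hF, one_mul]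
  · intro σ x y γ hγ
    apply huniq
    rw [hloc σ x y γ hγ, one_mul]

end Transport

section Local

variable {X : Type u} [TopologicalSpace X] {P : Type v} [Preorder P] {s : X → P}

/-- Canonical local path classes in the open stars. -/
theorem exists_loc (hsc : ∀ σ, IsSimplyConnected {x | σ ≤ s x}) :
    ∃ L : ∀ (σ : P) (x y : X), σ ≤ s x → σ ≤ s y → Path.Homotopic.Quotient x y,
      ∀ (σ : P) (x y : X) (hx : σ ≤ s x) (hy : σ ≤ s y),
        (∃ γ : Path x y, (∀ t, σ ≤ s (γ t)) ∧ .mk γ = L σ x y hx hy) ∧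
        ∀ γ : Path x y, (∀ t, σ ≤ s (γ t)) → .mk γ = L σ x y hx hy := by
  have h1 : ∀ (σ : P) (x y : X) (_ : σ ≤ s x) (_ : σ ≤ s y), ∃ γ : Path x y,
      ∀ t, σ ≤ s (γ t) := by
    intro σ x y hx hy
    have := (hsc σ).isPathConnected.joinedIn x hx y hy
    exact ⟨this.somePath, this.somePath_mem⟩
  have h2 : ∀ (σ : P) (x y : X) (γ γ' : Path x y), (∀ t, σ ≤ s (γ t)) →
      (∀ t, σ ≤ s (γ' t)) →
      (Path.Homotopic.Quotient.mk γ) = Path.Homotopic.Quotient.mk γ' := by
    intro σ x y γ γ' h h'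
    have hx : σ ≤ s x := by simpa using h 0
    have hy : σ ≤ s y := by simpa using h 1
    have := (hsc σ).simplyConnectedSpace
    let δ : Path (⟨x, hx⟩ : {x | σ ≤ s x}) ⟨y, hy⟩ :=
      { toFun := fun t => ⟨γ t, h t⟩
        continuous_toFun := by fun_prop
        source' := by simp
        target' := by simp }
    let δ' : Path (⟨x, hx⟩ : {x | σ ≤ s x}) ⟨y, hy⟩ :=
      { toFun := fun t => ⟨γ' t, h' t⟩
        continuous_toFun := by fun_prop
        source' := by simp
        target' := by simp }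
    have hh : δ.Homotopic δ' := SimplyConnectedSpace.paths_homotopic δ δ'
    have hm := hh.map ⟨(Subtype.val : {x | σ ≤ s x} → X), continuous_subtype_val⟩
    exact Path.Homotopic.Quotient.eq.2 hm
  choose γ hγ using h1
  refine ⟨fun σ x y hx hy => .mk (γ σ x y hx hy), fun σ x y hx hy => ⟨⟨_, hγ σ x y hx hy, rfl⟩,
    fun γ' h' => h2 σ x y _ _ h' (hγ σ x y hx hy)⟩⟩

end Local

section Algebra

variable {X : Type u} [TopologicalSpace X]

theorem symm_symm' {x y : X} (a : Path.Homotopic.Quotient x y) : a.symm.symm = a := by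
  obtain ⟨a⟩ := a
  change (Path.Homotopic.Quotient.mk a).symm.symm = _
  rw [← Path.Homotopic.Quotient.mk_symm, ← Path.Homotopic.Quotient.mk_symm, Path.symm_symm]
  rfl

theorem trans_symm' {x y z : X} (a : Path.Homotopic.Quotient x y)
    (b : Path.Homotopic.Quotient y z) : (a.trans b).symm = b.symm.trans a.symm := by
  obtain ⟨a⟩ := a
  obtain ⟨b⟩ := b
  change ((Path.Homotopic.Quotient.mk a).trans (Path.Homotopic.Quotient.mk b)).symm =
    (Path.Homotopic.Quotient.mk b).symm.trans (Path.Homotopic.Quotient.mk a).symm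
  simp only [← Path.Homotopic.Quotient.mk_symm, ← Path.Homotopic.Quotient.mk_trans,
    Path.trans_symm]

theorem cancel1 {x y z : X} (a : Path.Homotopic.Quotient x y)
    (b : Path.Homotopic.Quotient x z) : a.trans (a.symm.trans b) = b := by
  rw [← Path.Homotopic.Quotient.trans_assoc, Path.Homotopic.Quotient.trans_symm,
    Path.Homotopic.Quotient.refl_trans]

theorem cancel2 {x y z : X} (a : Path.Homotopic.Quotient x y)
    (b : Path.Homotopic.Quotient y z) : a.symm.trans (a.trans b) = b := by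
  rw [← Path.Homotopic.Quotient.trans_assoc, Path.Homotopic.Quotient.symm_trans,
    Path.Homotopic.Quotient.refl_trans]

end Algebra

section GroupLemmas

variable {K : Type w} [Group K]

theorem grp1 (a b c d : K) (h : c = a⁻¹ * b * d) : b = a * c * d⁻¹ := by
  rw [h]; group

theorem grp2 (u1 u2 u3 c1 c2 : K) :
    (u1 * c1 * u2⁻¹)⁻¹ * (u1 * c2 * u3⁻¹) = u2 * (c1⁻¹ * c2) * u3⁻¹ := by
  group

theorem grp3 (a b c p q : K) :
    (a * p * b⁻¹) * (b * q * c⁻¹) = a * (p * q) * c⁻¹ := by
  group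

end GroupLemmas

section Main

variable {X : Type u} [TopologicalSpace X] {P : Type v} [Preorder P] {s : X → P}

/-- The fundamental group of a stratified space with open simply connected stars, from
combinatorial data: a cocycle `g` with values in `A` on the index poset which is universal up to
gauge, whose values generate, and such that the edges with trivial label connect `P`. -/
theorem pi1_equiv
    (hs : ∀ p, IsOpen {x | p ≤ s x}) (hsc : ∀ p, IsSimplyConnected {x | p ≤ s x})
    (hsurj : Function.Surjective s)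
    {A : Type w} [Group A] (g : P → P → A)
    (hg : ∀ p q r, p ≤ q → q ≤ r → g p q * g q r = g p r)
    (p0 : P) (hconn : ∀ p, Relation.EqvGen (fun p q => p ≤ q ∧ g p q = 1) p0 p)
    (hgen : Subgroup.closure {a : A | ∃ p q, p ≤ q ∧ g p q = a} = ⊤)
    (huniv : ∀ (K : Type u) [Group K] (h : P → P → K),
      (∀ p q r, p ≤ q → q ≤ r → h p q * h q r = h p r) →
      ∃ (u : P → K) (φ : A →* K), ∀ p q, p ≤ q → h p q = (u p)⁻¹ * φ (g p q) * u q)
    (x : X) : Nonempty (FundamentalGroup X x ≃* A) := by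
  classical
  have hg' : IsCocycle g := hg
  obtain ⟨L, hL⟩ := exists_loc hsc
  -- properties of the local classes
  have L1 : ∀ (σ : P) (x y z : X) (hx : σ ≤ s x) (hy : σ ≤ s y) (hz : σ ≤ s z),
      (L σ x y hx hy).trans (L σ y z hy hz) = L σ x z hx hz := by
    intro σ x y z hx hy hz
    obtain ⟨γ, h, e⟩ := (hL σ x y hx hy).1
    obtain ⟨γ', h', e'⟩ := (hL σ y z hy hz).1
    rw [← e, ← e', ← Path.Homotopic.Quotient.mk_trans]
    refine (hL σ x z hx hz).2 _ fun t => ?_
    have : (γ.trans γ') t ∈ range γ ∪ range γ' := by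
      rw [← Path.trans_range]; exact mem_range_self t
    rcases this with ⟨a, ha⟩ | ⟨a, ha⟩
    · rw [← ha]; exact h a
    · rw [← ha]; exact h' a
  have L2 : ∀ (σ τ : P) (x y : X) (hst : σ ≤ τ) (hx : τ ≤ s x) (hy : τ ≤ s y),
      L τ x y hx hy = L σ x y (hst.trans hx) (hst.trans hy) := by
    intro σ τ x y hst hx hy
    obtain ⟨γ, h, e⟩ := (hL τ x y hx hy).1
    rw [← e]
    exact (hL σ x y _ _).2 _ fun t => hst.trans (h t)
  have L3 : ∀ (σ : P) (x : X) (hx : σ ≤ s x), L σ x x hx hx = .refl x := by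
    intro σ x hx
    rw [← (hL σ x x hx hx).2 (Path.refl x) (fun t => by simpa using hx)]
    rfl
  have L4 : ∀ (σ : P) (x y : X) (hx : σ ≤ s x) (hy : σ ≤ s y),
      (L σ x y hx hy).symm = L σ y x hy hx := by
    intro σ x y hx hy
    obtain ⟨γ, h, e⟩ := (hL σ x y hx hy).1
    rw [← e, ← Path.Homotopic.Quotient.mk_symm]
    exact (hL σ y x hy hx).2 _ fun t => h _
  -- base points
  choose b hb using hsurj
  have hbl : ∀ {σ τ : P}, σ ≤ τ → σ ≤ s (b τ) := fun {σ τ} h => h.trans (hb τ).ge
  let e : ∀ σ τ : P, σ ≤ τ → Path.Homotopic.Quotient (b σ) (b τ) := fun σ τ h =>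
    L σ (b σ) (b τ) (hbl le_rfl) (hbl h)
  have e_trans : ∀ (σ τ ρ : P) (h : σ ≤ τ) (h' : τ ≤ ρ),
      (e σ τ h).trans (e τ ρ h') = e σ ρ (h.trans h') := by
    intro σ τ ρ h h'
    change (L σ (b σ) (b τ) _ _).trans (L τ (b τ) (b ρ) _ _) = L σ (b σ) (b ρ) _ _
    rw [L2 σ τ (b τ) (b ρ) h, L1]
  -- transport
  obtain ⟨F, F_mul, F_loc⟩ := exists_transport hs g hg'
  have F_L : ∀ (σ : P) (x y : X) (hx : σ ≤ s x) (hy : σ ≤ s y),
      F x y (L σ x y hx hy) = (g σ (s x))⁻¹ * g σ (s y) := by
    intro σ x y hx hy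
    obtain ⟨γ, h, e⟩ := (hL σ x y hx hy).1
    rw [← e]
    exact F_loc σ x y γ h
  have F_e : ∀ (σ τ : P) (h : σ ≤ τ), F _ _ (e σ τ h) = g σ τ := by
    intro σ τ h
    change F _ _ (L σ (b σ) (b τ) _ _) = _
    rw [F_L, hb, hb, hg'.self, inv_one, one_mul]
  have F_one : ∀ x : X, F x x (.refl x) = 1 := by
    intro x
    have := F_mul x x x (.refl x) (.refl x)
    rw [Path.Homotopic.Quotient.refl_trans] at this
    simpa using this
  have F_symm : ∀ (x y : X) (γ : Path.Homotopic.Quotient x y),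
      F y x γ.symm = (F x y γ)⁻¹ := by
    intro x y γ
    rw [eq_inv_iff_mul_eq_one, ← F_mul, Path.Homotopic.Quotient.symm_trans, F_one]
  -- the connecting classes
  have hex : ∀ p, ∃ T : Path.Homotopic.Quotient (b p0) (b p), F _ _ T = 1 := by
    intro p
    refine Relation.EqvGen.rec (motive := fun a c _ =>
      ∃ T : Path.Homotopic.Quotient (b a) (b c), F _ _ T = 1) ?_ ?_ ?_ ?_ (hconn p)
    · rintro a c ⟨h, h1⟩
      exact ⟨e a c h, by rw [F_e _ _ h, h1]⟩
    · intro a
      exact ⟨.refl _, F_one _⟩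
    · rintro a c _ ⟨T, hT⟩
      exact ⟨T.symm, by rw [F_symm, hT, inv_one]⟩
    · rintro a c d _ _ ⟨T, hT⟩ ⟨T', hT'⟩
      exact ⟨T.trans T', by rw [F_mul, hT, hT', one_mul]⟩
  choose T F_T using hex
  -- the group of loops with product = concatenation
  let K := (FundamentalGroup X (b p0))ᵐᵒᵖ
  let op : Path.Homotopic.Quotient (b p0) (b p0) → K := fun γ => MulOpposite.op γ
  have op_mul : ∀ γ γ', op (γ.trans γ') = op γ * op γ' := fun γ γ' => rfl
  have op_one : op (.refl _) = 1 := rfl
  have op_inj : Function.Injective op := MulOpposite.op_injective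
  have op_inv : ∀ γ, op γ.symm = (op γ)⁻¹ := by
    intro γ
    rw [eq_inv_iff_mul_eq_one, ← op_mul, Path.Homotopic.Quotient.symm_trans, op_one]
  let c : P → P → K := fun σ τ =>
    if h : σ ≤ τ then op (((T σ).trans (e σ τ h)).trans (T τ).symm) else 1
  have hcv : ∀ σ τ (h : σ ≤ τ), c σ τ = op (((T σ).trans (e σ τ h)).trans (T τ).symm) :=
    fun σ τ h => dif_pos h
  have hc : ∀ p q r, p ≤ q → q ≤ r → c p q * c q r = c p r := by
    intro σ τ ρ h h'
    rw [hcv σ τ h, hcv τ ρ h', hcv σ ρ (h.trans h'), ← op_mul, ← e_trans σ τ ρ h h']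
    congr 1
    simp only [Path.Homotopic.Quotient.trans_assoc, cancel2]
  obtain ⟨u, ψ, hψ⟩ := huniv K c hc
  have hψ' : ∀ σ τ, σ ≤ τ → ψ (g σ τ) = u σ * c σ τ * (u τ)⁻¹ := by
    intro σ τ h
    exact grp1 _ _ _ _ (hψ σ τ h)
  -- comparison paths
  let r : ∀ x : X, Path.Homotopic.Quotient x (b (s x)) := fun x =>
    L (s x) x (b (s x)) le_rfl (hbl le_rfl)
  let T' : ∀ x : X, Path.Homotopic.Quotient (b p0) x := fun x => (T (s x)).trans (r x).symm
  have hloc : ∀ (σ : P) (x y : X) (hx : σ ≤ s x) (hy : σ ≤ s y),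
      ψ (F x y (L σ x y hx hy)) =
        u (s x) * op (((T' x).trans (L σ x y hx hy)).trans (T' y).symm) * (u (s y))⁻¹ := by
    intro σ x y hx hy
    have hr : ∀ (z : X) (hz : σ ≤ s z), L σ (b σ) z (hbl le_rfl) hz =
        (e σ (s z) hz).trans (r z).symm := by
      intro z hz
      change _ = (L σ (b σ) (b (s z)) _ _).trans (L (s z) z (b (s z)) _ _).symm
      rw [L4, L2 σ (s z) (b (s z)) z hz, L1]
    have h1 : L σ x y hx hy = (L σ (b σ) x (hbl le_rfl) hx).symm.trans
        (L σ (b σ) y (hbl le_rfl) hy) := by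
      rw [L4, L1]
    have h2 : op (((T' x).trans (L σ x y hx hy)).trans (T' y).symm) =
        (c σ (s x))⁻¹ * c σ (s y) := by
      rw [hcv _ _ hx, hcv _ _ hy, ← op_inv, ← op_mul]
      congr 1
      rw [h1, hr x hx, hr y hy]
      simp only [T', symm_symm', trans_symm', Path.Homotopic.Quotient.trans_assoc, cancel2]
    rw [F_L, map_mul, map_inv, hψ' _ _ hx, hψ' _ _ hy, h2]
    exact grp2 _ _ _ _ _
  have hall : ∀ (x y : X) (γ : Path.Homotopic.Quotient x y),
      ψ (F x y γ) = u (s x) * op (((T' x).trans γ).trans (T' y).symm) * (u (s y))⁻¹ := by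
    refine path_induction (fun σ => {x | σ ≤ s x}) hs (fun x => ⟨s x, le_rfl⟩) _ ?_ ?_
    · intro σ x y γ hγ
      have hx : σ ≤ s x := by simpa using hγ 0
      have hy : σ ≤ s y := by simpa using hγ 1
      rw [(hL σ x y hx hy).2 γ hγ]
      exact hloc σ x y hx hy
    · intro x y z γ γ' h h'
      have h3 : op (((T' x).trans (γ.trans γ')).trans (T' z).symm) =
          op (((T' x).trans γ).trans (T' y).symm) *
            op (((T' y).trans γ').trans (T' z).symm) := by
        rw [← op_mul]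
        congr 1
        simp only [Path.Homotopic.Quotient.trans_assoc, cancel2]
      rw [F_mul, map_mul, h, h', h3]
      exact grp3 _ _ _ _ _
  -- injectivity
  let Φ : FundamentalGroup X (b p0) →* A :=
    { toFun := fun γ => (F _ _ γ)⁻¹
      map_one' := by
        rw [FundamentalGroup.one_def, F_one, inv_one]
      map_mul' := fun γ γ' => by
        rw [FundamentalGroup.mul_def, F_mul, mul_inv_rev] }
  have hΦinj : Function.Injective Φ := by
    intro γ γ' h
    have h1 : F _ _ γ = F _ _ γ' := inv_injective h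
    have h2 := congrArg ψ h1
    rw [hall, hall] at h2
    have h3 := op_inj (mul_left_cancel (mul_right_cancel h2))
    have h4 := congrArg (fun δ => ((T' (b p0)).symm.trans δ).trans (T' (b p0))) h3
    simp only [Path.Homotopic.Quotient.trans_assoc, cancel2,
      Path.Homotopic.Quotient.symm_trans, Path.Homotopic.Quotient.trans_refl] at h4
    exact h4
  have hΦsurj : Function.Surjective Φ := by
    rw [← MonoidHom.range_eq_top, eq_top_iff, ← hgen, Subgroup.closure_le]
    rintro _ ⟨σ, τ, h, rfl⟩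
    refine ⟨(((T σ).trans (e σ τ h)).trans (T τ).symm).symm, ?_⟩
    change (F _ _ _)⁻¹ = _
    rw [F_symm, inv_inv, F_mul, F_mul, F_T, F_e _ _ h, F_symm, F_T, inv_one, one_mul, mul_one]
  obtain ⟨p, -⟩ := Path.Homotopic.Quotient.mk_surjective ((r x).trans (T (s x)).symm)
  exact ⟨(FundamentalGroup.fundamentalGroupMulEquivOfPath p).trans
    (MulEquiv.ofBijective Φ ⟨hΦinj, hΦsurj⟩)⟩

end Main

end Pool.Agent.Lib.MP_340815_al.Strat
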